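import Mathlib
import Pool.Agent.Q64.L.InstC
import Pool.Agent.Q64.NH.Thms

/-!
# The numerical Hodge standard conjecture for the products of abelian varieties with abelian
varieties of almost all slope types of all CM fields

Let `K i` (`i` in a finite set) be CM fields of degree `2 g i`. Nothing is assumed about their
Galois groups. They are pairwise independent: for `i ≠ k` and all complex embeddings `φ` of `K i`
and `ψ` of `K k` some automorphism of `ℂ` is the identity on `φ (K i)` and the complex conjugation
on `ψ (K k)` (this is no condition if there is only one field). We fix an isomorphism `ν` of the
algebraic closure of `ℚ_p` with `ℂ`; it defines a `p`-adic valuation of `ℂ`, with the value one at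
`p`. Let `M i` be a function with nonzero integral values, all of which divide `n i`, on the
complex embeddings of `K i`, invariant under complex conjugation. A CM type `Φ i` of `K i` (a
choice of one element out of each complex conjugate pair of embeddings; there are `2 ^ (g i)`
types), `M i` and a real number `κ ≠ 0` prescribe the slopes `(a + κ M) / 2` (at the embeddings in
`Φ i`) and `(a - κ M) / 2` (outside of `Φ i`) of a Weil number for `p ^ a` in `K i` (`HasType`).
The case `M = 1`, `κ = a` is the case of ordinary abelian varieties; the assumption on `M` says
that `a / 2` is not a slope.

There are `2 ^ (∑ i, g i)` families of CM types `Φ i` of the fields `K i`. A family is exceptional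
(`exceptionalFamilies ν K M`) if the following statement (`Holds`) is false for it. Let `π i` be
Weil numbers for `q = p ^ a` that generate the fields `K i` and have the slope types `Φ i`, `M i`,
and let `f i` be monic polynomials whose complex roots are conjugates of `π i` (`IsPolyOf`), for
instance the characteristic polynomials of Frobenius of the abelian varieties in the isogeny
classes of the `π i` over the field with `q` elements. Let `A` be an abelian variety over the field
with `Q = q ^ s` elements which is isogenous to a product of powers of abelian varieties coming
from the field with `q` elements, with characteristic polynomials `f i`, and let `B` be **any**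
abelian variety over the field with `Q` elements such that

* the eigenvalues `ρ` of Frobenius on the cohomology of `B` and their conjugates are unrelated to
  the fields `K i` (`UnrelatedTo`): a function `n` on the complex embeddings of `K i` with
  `n (conj φ) = - n φ` which is invariant under all automorphisms of `ℂ` that fix a power of `ρ` is
  zero. This is so if for each embedding `ψ` of `K i` some automorphism which fixes a power of `ρ`
  is the complex conjugation on `ψ (K i)`: for instance, if a power of `ρ` lies in a field linearly
  disjoint from the normal closures of the `K i`, or in a totally real field. It is also so if the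
  degree of `ρ` is less than twice the dimension of each nonzero space of functions `n` stable
  under all automorphisms of `ℂ`.

**For every polarization `L` of `A × B` (over the algebraic closure) the numerical Hodge standard
conjecture holds for `A × B` and `L` if and only if it holds for `B` and the restriction `M` of `L`
to `B`.** More precisely (`NumHodgeReduces`): each divisor `L` on `A × B` is equivalent to a sum
`D × B + A × M`; if `L` satisfies hard Lefschetz, so do `D` and `M`; and if `D` is positive on the
classes on `A` generated by divisors (for ample `D` this is known: Milne, Ancona), then the
conjecture holds for `(A × B, L)` if and only if it holds for `(B, M)`. So Q1 for `A × B` and all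
polarizations is equivalent to Q1 for `B` and all polarizations. No case of the Tate conjecture is
assumed. For example, Q1 is true for all `A × B` as above with `dim B ≤ 4`, because it is known for
abelian fourfolds (Ancona).

The theorem is stated with a Weil cohomology `W` with algebraically closed coefficient field such
that numerical and homological equivalence coincide on `B`; for abelian varieties over finite
fields there are infinitely many such `ℓ` (Clozel). The numerical statements do not depend on `W`.
(`B` may be any smooth projective variety with this property.) What is used of `A` are known
theorems (`IsAbelianFrobenius`): the cohomology is generated by `H^1`, on which Frobenius is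
diagonalizable with powers of roots of the `f i` as eigenvalues (Weil), the theorem of Tate on
divisors, and that Frobenius acts on cycles of codimension `j` as `Q ^ j`, over a finite extension.

The theorem bounds the number of the exceptional families: it is at most
`2 ^ (∑ i, g i) * ∑ i, C * (n i) ^ 2 * (1 + log (2 g i)) ^ 16 * min (N ^ 2 * D ^ (1 / 4) / √g, √g / q)`
with an absolute constant `C`. Here, for `K = K i` and `g = g i`, `N` is the number of the CM
subfields of `K` (with `K`), `D = D i ≥ 1` is a bound for the degrees of the CM subfields of `K`
that are normal over `ℚ` with a nonabelian Galois group, and `q = q i` is any prime factor of `g`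
(or `q = 1`). So the exceptional types are a proportion `O (n ^ 2 * g ^ (-1 / 4) * (log g) ^ 16)`
of all types of all CM fields with a bounded number of CM subfields,
`O (n ^ 2 * g ^ (-1 / 2) * (log g) ^ 16)` if the normal nonabelian ones have bounded degrees, and
`O (n ^ 2 * g ^ (-δ) * (log g) ^ 16)` for all CM fields, with any number of subfields, whose degree
is divisible by a prime number `q ≥ g ^ (1 / 2 + δ)`. Some assumption is necessary: almost all
types of a multiquadratic CM field are degenerate. The counting part (the bound for the number of
the degenerate types) is the one of `AllCMFields` (MP_e12fcd_ag), by helper1 and others of this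
team.

Relation to other results. `SeveralTypesPerField` (this folder, helper70) is about abelian
varieties on which all algebraic classes are known; here nothing is known about the cycles on `B`.
For the standard conjecture of Hodge type (the homological form) there is `AllCMTypesTimes`
(MP_361a6f_ag, helper70). New here is the numerical form, for which the theorem of Clozel is used.
`NewtonStrata` and `SmallSlopeDeviation` (this folder) are about other abelian varieties.

The proof. Suppose that the product of `ρ` and of some eigenvalues `φ (π i)` of `A`, no two of them
complex conjugate, is a power of `q`, up to a root of unity. For an automorphism `σ` of `ℂ` the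
`p`-adic valuations of the images under `σ` give a linear relation between the signed weights
`± M i (σ φ)` whose right side is a function of the valuation of `σ ρ`. It does not change if `σ`
is multiplied by an automorphism `τ` which fixes a power of `ρ`. The difference of the two
relations is homogeneous; if the types are not degenerate it is trivial, so that the differences of
the exponents of complex conjugate embeddings are invariant under `τ`. So they are zero, as `ρ` is
unrelated to the fields `K i`. So the classes of cycles on `A` are generated by divisors, and the
classes of cycles on `A × B` are combinations of products of classes of cycles on `A` and on `B`;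
numerical and homological equivalence coincide on `A`, and on `A × B`. The rest is the theory of
Lefschetz of the starting files (TH132.A): the primitive classes on `A × B` are described by those
on `A` and on `B` as for the tensor product of two representations of `sl_2`, and the intersection
forms are products.
-/

set_option autoImplicit false

namespace Pool.Agent.Results.MP_c0b458_ag.AllCMTypesTimes

open NumberField Module Pool.Agent.H204R3.CM Pool.Agent.H977R3.CM Pool.Agent.TH170
  Pool.Agent.Y1.KN Pool.Agent.Y1.CT Pool.Agent.Q64.L Pool.Agent.Q64.NH

/-- The statement `NumHodgeReduces` holds for all abelian varieties `A` whose Frobenius eigenvalues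
are powers of conjugates of Weil numbers with the slope types `Φ i`, `M i`, and all abelian
varieties `B` unrelated to the fields `K i`. -/
def Holds {p : ℕ} [Fact p.Prime] (ν : PadicAlgCl p ≃+* ℂ) {I : Type} (K : I → Type)
    [∀ i, Field (K i)] [∀ i, NumberField (K i)] [∀ i, IsCMField (K i)]
    (M : ∀ i, (K i →+* ℂ) → ℤ) (Φ : ∀ i, Set (K i →+* ℂ)) : Prop :=
  ForAllTypes ν K M (fun q f => NumHodgeReduces (UnrelatedRoots K) q f) Φ

/-- The exceptional families of CM types. -/
def exceptionalFamilies {p : ℕ} [Fact p.Prime] (ν : PadicAlgCl p ≃+* ℂ) {I : Type} (K : I → Type)
    [∀ i, Field (K i)] [∀ i, NumberField (K i)] [∀ i, IsCMField (K i)]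
    (M : ∀ i, (K i →+* ℂ) → ℤ) : Set (∀ i, Set (K i →+* ℂ)) :=
  {Φ | (∀ i, IsCMType (Φ i)) ∧ ¬ Holds ν K M Φ}

/-- **The numerical Hodge standard conjecture for `A × B` is equivalent to the one for `B`, for the
abelian varieties `A` of almost all slope types of all CM fields and all unrelated abelian
varieties `B`.** -/
theorem result :
    ∃ C : ℝ, 0 ≤ C ∧ ∀ (p : ℕ) [Fact p.Prime] (ν : PadicAlgCl p ≃+* ℂ) (I : Type) [Fintype I]
      (K : I → Type) [∀ i, Field (K i)] [∀ i, NumberField (K i)] [∀ i, IsCMField (K i)]
      (M : ∀ i, (K i →+* ℂ) → ℤ) (n g q : I → ℕ) (D : I → ℝ), PairwiseIndep K →
      (∀ i φ, M i (ComplexEmbedding.conjugate φ) = M i φ) → (∀ i, n i ≠ 0) →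
      (∀ i φ, M i φ ∣ (n i : ℤ)) → (∀ i, finrank ℚ (K i) = 2 * g i) →
      (∀ i, q i ∣ g i ∧ (q i = 1 ∨ (q i).Prime)) → (∀ i, 1 ≤ D i) →
      (∀ (i : I) (L : IntermediateField ℚ (K i)), IsCMField L → IsGalois ℚ L →
        ¬ IsAbelianGalois ℚ L → (finrank ℚ L : ℝ) ≤ D i) →
      ((exceptionalFamilies ν K M).ncard : ℝ) ≤
        2 ^ (∑ i, g i) * ∑ i, C * (n i : ℝ) ^ 2 * ((1 + Real.log (2 * g i)) ^ 16 *
          min ((numCMSubfields (K i) : ℝ) ^ 2 * D i ^ (1 / 4 : ℝ) / √(g i)) (√(g i) / q i)) := by
  obtain ⟨C, hC0, hC⟩ := countC
  refine ⟨C, hC0, ?_⟩
  intro p _ ν I _ K _ _ _ M n g q D hind hM hn hMn hg hq hD hDF
  exact hC p ν I K M n g q D hind hM hn hMn hg hq hD hDF _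
    fun Q f hQ hG => numHodgeReduces hQ hG

end Pool.Agent.Results.MP_c0b458_ag.AllCMTypesTimes
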