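import Mathlib
import Pool.Agent.Q64.N.Main
import Pool.Agent.Q64.NH.Thms

/-!
# The numerical Hodge standard conjecture for the products of abelian varieties with abelian
varieties: Newton strata

Fix a prime number `p` and a nonempty finite set `κ`. For `i` in `κ` let `g i` be a dimension and
let `sl i j`, `j < g i`, be rational numbers between `0` and `1 / 2` such that the `sl i j` and
`1 - sl i j` are the slopes of a symmetric Newton polygon with integral break points (`IsNewton`)
which is not the supersingular one, that is `sl i j < 1 / 2` for some `j`. Let `r` be an integer
smaller than all the `g i`, and let `E` be a number field. By the theorem of Honda and Tate,
`Stratum g sl p a` is the set of the families of isogeny classes of abelian varieties of dimensions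
`g i` over the field with `q = p ^ a` elements with these Newton polygons; it consists of the
families `f i` of the characteristic polynomials of Frobenius.

As `a → ∞`, the number of the families in `Stratum g sl p a` tends to infinity, and **the
proportion of those families for which the following is true tends to one**: for all `N` and
`ε > 0` there is an `a₀` such that for `a ≥ a₀` there are at least `N` families, and at most `ε`
times their number are exceptions.

Let `A` be an abelian variety over the field with `Q = q ^ s` elements, `s > 0`, which is isogenous
to a product of powers of abelian varieties coming from the field with `q` elements, with
characteristic polynomials `f i`, and let `B` be **any** abelian variety over the field with `Q`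
elements such that

* the eigenvalues `ρ` of Frobenius on the cohomology of `B` and their conjugates are in a group of
  rank at most `r` over `E` (`RootsRank`): there are nonzero numbers `u 1, ..., u r` such that each
  `ρ` has a power which is the product of a nonzero element of `E` and of integral powers of
  `u 1, ..., u r`.

**For every polarization `L` of `A × B` (over the algebraic closure) the numerical Hodge standard
conjecture holds for `A × B` and `L` if and only if it holds for `B` and the restriction `M` of `L`
to `B`.** More precisely (`NumHodgeReduces`): each divisor `L` on `A × B` is equivalent to a sum
`D × B + A × M`; if `L` satisfies hard Lefschetz, so do `D` and `M`; and if `D` is positive on the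
classes on `A` generated by divisors (for ample `D` this is known: Milne, Ancona), then the
conjecture holds for `(A × B, L)` if and only if it holds for `(B, M)`. So Q1 for `A × B` and all
polarizations is equivalent to Q1 for `B` and all polarizations. No case of the Tate conjecture is
assumed. For example, Q1 is true for all `A × B` as above with `dim B ≤ 4`, because it is known for
abelian fourfolds (Ancona).

The theorem is stated with a Weil cohomology `W` with algebraically closed coefficient field such
that numerical and homological equivalence coincide on `B`; for abelian varieties over finite
fields there are infinitely many such `ℓ` (Clozel). The numerical statements do not depend on `W`.
(`B` may be any smooth projective variety with this property.) What is used of `A` are known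
theorems (`IsAbelianFrobenius`): the cohomology is generated by `H^1`, on which Frobenius is
diagonalizable with powers of roots of the `f i` as eigenvalues (Weil), the theorem of Tate on
divisors, and that Frobenius acts on cycles of codimension `j` as `Q ^ j`, over a finite extension.

For `r = 0` the assumption on the eigenvalues says that they and their conjugates have powers in
`E`. If for instance a factor of this kind over the field with `q' = p ^ b` elements is given, one
can take for `E` the field generated by the Frobenius eigenvalues and their conjugates, and apply
the theorem to the fields with `q = p ^ a` elements, `b | a`. A supersingular abelian variety may
always be added to the other factor.

Relation to other results. `SeveralTypesPerField` (this folder, helper70) is about abelian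
varieties on which all algebraic classes are known; here nothing is known about the cycles on `B`.
For the standard conjecture of Hodge type (the homological form) there is `AlmostAllAbelianTimes`
(MP_361a6f_ag), about almost all abelian varieties of given dimensions. Almost all of these are
ordinary, and each other Newton polygon belongs to a proportion of the isogeny classes which tends
to zero; so that theorem says nothing about any Newton polygon which is not ordinary. Here the
characteristic and the Newton polygons are given: for instance one obtains almost all those abelian
varieties of a given dimension at least three, over the fields of characteristic `p`, which have
`p`-rank zero and are not supersingular. The count of the families in a stratum is that of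
helper518 (`NewtonStrata`, MP_ee618e_ag, where it is applied to the Tate conjecture for the
products of the abelian varieties in the stratum and supersingular ones).

The proof. The elements of the stratum correspond to integral points in a box whose sides tend to
infinity: the coefficients of the trace polynomials, divided by the powers of `p` prescribed by the
Newton polygons (helper518). We apply the sieve only with primes which split completely in the
Galois closure of `E`; there are infinitely many (Chebotarev, formalized by helper401). So for
almost all families the trace polynomials are irreducible, and each pair `α`, `q / α` of roots can
be exchanged by a Galois automorphism which fixes all the other roots of all the `f i` and all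
elements of `E`. No root is supersingular, as some slope is smaller than `1 / 2`. A multiplicative
relation between `ρ`, a power of `q` and roots of the `f i`, other than those which follow from
`α (q / α) = q`, expresses some power of `α ^ 2 / q`, for all roots `α` of one `f i`, by conjugates
of `ρ`; by the automorphisms above these `g i > r` numbers are multiplicatively independent, also
modulo `E`, which is a contradiction. So the classes of cycles on `A` are generated by divisors,
and the classes of cycles on `A × B` are combinations of products of classes of cycles on `A` and
on `B`; numerical and homological equivalence coincide on `A`, and on `A × B`. The rest is the
theory of Lefschetz of the starting files (TH132.A): the primitive classes on `A × B` are described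
by those on `A` and on `B` as for the tensor product of two representations of `sl_2`, and the
intersection forms are products.
-/

set_option autoImplicit false

namespace Pool.Agent.Results.MP_c0b458_ag.NewtonStrata

open Polynomial Pool.Agent.Q64.N Pool.Agent.Q64.NH
open Pool.Agent.Q64.L (RootsRank)

/-- **The numerical Hodge standard conjecture for `A × B` is equivalent to the one for `B`, for all
abelian varieties `B` whose Frobenius eigenvalues and their conjugates are of rank at most `r` over
`E`, for almost all families of abelian varieties in each Newton stratum over the fields of
characteristic `p`.** -/
theorem result {κ : Type} [Fintype κ] [Nonempty κ] (p : ℕ) [Fact p.Prime]
    -- dimensions and Newton polygons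
    (g : κ → ℕ) (sl : ∀ i, Fin (g i) → ℚ) (hsl : ∀ i, IsNewton (sl i))
    (hss : ∀ i, ∃ j, sl i j < 1 / 2)
    -- the rank and the number field
    (r : ℕ) (hr : ∀ i, r < g i) (E : IntermediateField ℚ ℂ) [FiniteDimensional ℚ E]
    -- a number of families, a proportion of exceptions
    (N : ℕ) (ε : ℝ) (hε : 0 < ε) :
    ∃ a₀ : ℕ, ∀ a, a₀ ≤ a →
      (Stratum g sl p a).Finite ∧ N ≤ (Stratum g sl p a).ncard ∧
      ({f ∈ Stratum g sl p a | ¬ NumHodgeReduces (RootsRank E r) (p ^ a) f}.ncard : ℝ) ≤
        ε * ((Stratum g sl p a).ncard : ℝ) :=
  strata p g sl hsl hss r hr E (fun a f => NumHodgeReduces (RootsRank E r) (p ^ a) f)
    (fun _ _ _ hq hG => numHodgeReduces hq hG) N ε hε

end Pool.Agent.Results.MP_c0b458_ag.NewtonStrata
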