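import Mathlib
import Pool.Agent.Q70.MM.ElemMain
import Pool.Agent.Q70.MM.NumPos

/-!
# The numerical standard conjecture of Hodge type for abelian varieties with several non-isogenous large
factors with the same CM field and arbitrary small factors

Over an algebraic closure of the field with `p` elements each abelian variety is isogenous to the
reduction of an abelian variety of CM type (Honda, Tate). So an abelian variety over the field with
`p ^ a` elements is modelled by `RedAV`: a finite product of CM types `(E i, Φ i)` with Weil numbers
`π i ∈ E i` that satisfy the formula of Shimura and Taniyama; its cohomology of degree `n`, with
coefficients in an algebraically closed field `Ω`, consists of the alternating `n`-forms on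
`Ω ⊗ H_1`, on which the Frobenius endomorphism acts by `π`. We fix an isomorphism `ν` of the algebraic
closure of `ℚ_p` with `ℂ`; it defines a `p`-adic valuation of `ℂ`, with the value one at `p`.

Let `Z` be an abelian variety of this kind. We consider large factors of `Z` (`LargeFactors`): factors
`(c, l)`, `l` in a finite set `J c`, with the CM field `K c`. There may be several of them with **the
same field**, with different CM types and Weil numbers. We suppose that the functions `n` on the
complex embeddings of `K c` with `n (conj φ) = - n φ` are an absolutely irreducible representation
of the automorphisms of `ℂ` (`OddAbsolutelyIrreducible`: the generic case, it is true if the Galois group
of the normal closure of `K c` consists of all permutations of the embeddings compatible with the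
complex conjugation, or if only some automorphism exchanges one embedding with its complex conjugate
and fixes all the others) and that there are no equivariant maps between these functions for `K c` and
`K c'`, `c ≠ c'` (`Unrelated`). The other factors of `Z` (`rest`) are arbitrary abelian varieties whose
CM fields have smaller degree than all `K c` or are unrelated to them; they form a good set
(`IsGoodSet`): the sum of their dimensions is at most five (and no two of them are an exceptional pair), or
they have dimension at most three, and those with equal Galois closures are isogenous, unless the CM
fields are Galois over `ℚ` or one of the two factors is supersingular. (So these factors may be
arbitrary elliptic curves, or an arbitrary simple abelian variety of dimension at most five.)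

**Theorem.** Suppose that (1) for each `c` the slopes of the Frobenius endomorphisms of the factors
`(c, l)`, `l` in `J c`, as functions on the embeddings of `K c` into the algebraic closure of `ℚ_p`,
minus `1 / 2`, are linearly independent over `ℚ` (`IndependentSlopes`), or that (2) the large factors are
ordinary, at most three of them have the same field, and the slopes of two with the same field are
neither equal nor opposite (`OrdinaryTriples`; for ordinary abelian varieties this means that they are
not isogenous over the algebraic closure). Then the numerical standard conjecture of Hodge type is true
(`NumHodgeStandard`) for all abelian varieties `Y` which are isogenous, over the algebraic closure, to
products of powers of the factors of `Z` and of supersingular ones (`IsPowersTimesSupersingular`), for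
all polarizations and all codimensions `r`, `dim Y = 2 r + m`: **for each cycle `z` of codimension `r`
that is not numerically equivalent to zero and such that `z ∪ E^(m + 1)` is numerically equivalent to
zero, `(-1)^r z ∪ z ∪ E^m > 0`**.

The space of the classes of algebraic cycles of degree `card κ` on `Y`, with rational coefficients, is
`C Y κ`. The properties of these spaces that are used are known theorems: they are closed under sums,
cup products, pull-backs and push-forwards, they contain the Hodge classes of degree two of the
liftings (Lefschetz) and the split Weil classes of degree four and six (Markman; only needed for the
factors in the good set), and the Tate classes of degree two are combinations of such classes (Tate)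
(`IsCycleSystem`); the positivity of the Rosati involution (Weil, `IsRosatiPositive`); classes of cycles
are Tate classes over finite extensions (`AreTate`). The polarizations are those compatible with the
complex multiplications of the lifting (`IsPolar`, with the Riemann form
`∑ i, Tr (α i * conj (x i) * y i)`); by theorems of Honda, Tate and Zink each polarized abelian variety
over an algebraic closure of a finite field is isogenous to the reduction of such a polarized abelian
variety.

For example, let `K` be a CM field of degree `2 g` with `2 ^ g g!` automorphisms of the normal closure,
and `A`, `B`, `C` three abelian varieties of dimension `g ≥ 6` over finite fields, ordinary, with complex
multiplication by `K`, and `D` an arbitrary simple abelian variety of dimension at most five: then the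
numerical standard conjecture of Hodge type is true for all products of powers of `A`, `B`, `C`, `D`.

Relation to the starting files: there are none for this problem. `AlmostAllSlopeTypes` (MP_ffcd14_ag)
treats the homological version for one large factor for each field, `TH117.PO` reduces the
homological version to multiplicative relations between the Frobenius eigenvalues; this is used here,
and it is first shown that, for these abelian varieties, numerically trivial cycles and products with
the polarization that are numerically trivial are homologically trivial. The theorem
`ThreeTypesPerField` of helper70 (MP_ffcd14_ag) is on products with arbitrary varieties `V` for which
the conjecture is supposed; `SeveralTypesPerField` (MP_ee618e_ag) is on the Tate conjecture. Published: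
Milne (the conjecture of Hodge type follows if the exotic Tate classes are reductions of Hodge
classes), Ancona (dimension four), Koshikawa (products and powers under conditions).

The proof. A multiplicative relation between the conjugates of all Frobenius eigenvalues gives a
relation between the conjugates of the slope functions. Summing its scalar products with the slope
functions over the Galois group, by Schur's lemma, one obtains that for each single embedding `x` of
`K c` there is a linear relation between the slope functions of the factors `(c, l)`, `l` in `J c`,
with coefficients the exponents at `x` minus those at `conj x`. So the exponents are symmetric at the
large factors, and the relation is a product of trivial relations and of one for the small factors.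
-/

set_option autoImplicit false

namespace Pool.Agent.Results.MP_c0b458_ag.SeveralTypesPerField

open NumberField Module Pool.Agent.TH117.BL Pool.Agent.TH117.PO Pool.Agent.W495.TA
  Pool.Agent.W547.KB Pool.Agent.Q70.SQ Pool.Agent.Q70.MM

/-- **The numerical standard conjecture of Hodge type for the abelian varieties over finite fields that
are products of powers of large factors, several of which may have the same (generic) CM field, with
linearly independent slopes, for instance at most three ordinary ones, of small factors, and of
supersingular ones.** -/
theorem result (p : ℕ) [Fact p.Prime] (ν : PadicAlgCl p ≃+* ℂ) (Z : RedAV p ν)
    (D : LargeFactors Z) (hgood : IsGoodSet Z D.rest)
    (hD : IndependentSlopes p Z.a D.frob ∨ D.OrdinaryTriples)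
    (Ω : Type) [Field Ω] [CharZero Ω] [IsAlgClosed Ω]
    (C : (Y : RedAV p ν) → (κ : Type) → ((TM Ω Y) [⋀^κ]→ₗ[Ω] Ω) → Prop)
    (hC : IsCycleSystem Ω C) (hR : IsRosatiPositive Ω C) (hT : AreTate Ω C)
    (Y : RedAV p ν) (hY : IsPowersTimesSupersingular Z Y) : NumHodgeStandard C Y := by
  have hel : HasElementaryRelations Z :=
    elementary_of_large D (hD.elim id (independent_of_triples D)) hgood
  exact numHodge_of_alg hC hR hT fun s r f hs hf => elementary Z hel Ω Y hY s r hs f hf

end Pool.Agent.Results.MP_c0b458_ag.SeveralTypesPerField
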