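import Mathlib
import Pool.Agent.Q64.NH.Thms
import Pool.Agent.Q64.P.Good

/-!
# The numerical Hodge standard conjecture for the products of abelian varieties with abelian
varieties: small slope deviations

Let `q = p ^ a`, let `F i` (`i` in a finite set) be CM fields and `π i` a Weil number for `q` in
`F i`, and let `f i` be monic polynomials whose complex roots are conjugates of `π i` (`IsPolyOf`),
for instance the characteristic polynomials of Frobenius of the abelian varieties in the isogeny
class of `π i` over the field with `q` elements. We suppose that

* the functions `n` on the complex embeddings of `F i` with `n (conj φ) = - n φ` are an absolutely
  irreducible representation of the automorphisms of `ℂ` (`OddAbsolutelyIrreducible`), and there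
  are no equivariant maps between those of `F i` and `F i'` for `i ≠ i'` (`Unrelated`). This is the
  generic case; the first condition is true, for example, if the Galois group of the normal closure
  of `F i` consists of all permutations of the embeddings compatible with the complex conjugation,
  or if only some automorphism exchanges one embedding with its complex conjugate and fixes all the
  others;
* no `π i` is supersingular (`HasOtherSlope`).

Let `A` be an abelian variety over the field with `Q = q ^ s` elements which is isogenous to a
product of powers of abelian varieties coming from the field with `q` elements, with characteristic
polynomials `f i`, and let `B` be **any** abelian variety over the field with `Q` elements such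
that

* the eigenvalues `ρ` of Frobenius on the cohomology of `B` and their conjugates are good
  (`GoodRoots`): for each `i`, `ρ` is unrelated to `F i` (`UnrelatedTo`: a function `n` on the
  embeddings of `F i` with `n (conj φ) = - n φ` which is invariant under all automorphisms of `ℂ`
  that fix a power of `ρ` is zero), **or** `d (ρ) < d (π i)`, **or** the weight of `ρ` is even and
  `d (ρ) < d (π i) + d (π i')` for all `i'` (`SmallDeviation`). Here `d (ρ)` is the mean of
  `(log |x| + log |ρ|) ^ 2` over all `p`-adic conjugates `x` of `ρ` (`deviation`), that is
  `(log q) ^ 2` times the mean square deviation of the slopes of `ρ` from half of its weight, and
  `d (π i) = (log q) ^ 2 / 4` if `π i` is ordinary (second part of the theorem).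

**For every polarization `L` of `A × B` (over the algebraic closure) the numerical Hodge standard
conjecture holds for `A × B` and `L` if and only if it holds for `B` and the restriction `M` of `L`
to `B`.** More precisely (`NumHodgeReduces`): each divisor `L` on `A × B` is equivalent to a sum
`D × B + A × M`; if `L` satisfies hard Lefschetz, so do `D` and `M`; and if `D` is positive on the
classes on `A` generated by divisors (for ample `D` this is known: Milne, Ancona), then the
conjecture holds for `(A × B, L)` if and only if it holds for `(B, M)`. So Q1 for `A × B` and all
polarizations is equivalent to Q1 for `B` and all polarizations. No case of the Tate conjecture is
assumed. For example, Q1 is true for all `A × B` as above with `dim B ≤ 4`, because it is known for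
abelian fourfolds (Ancona).

The theorem is stated with a Weil cohomology `W` with algebraically closed coefficient field such
that numerical and homological equivalence coincide on `B`; for abelian varieties over finite
fields there are infinitely many such `ℓ` (Clozel). The numerical statements do not depend on `W`.
(`B` may be any smooth projective variety with this property.) What is used of `A` are known
theorems (`IsAbelianFrobenius`): the cohomology is generated by `H^1`, on which Frobenius is
diagonalizable with powers of roots of the `f i` as eigenvalues (Weil), the theorem of Tate on
divisors, and that Frobenius acts on cycles of codimension `j` as `Q ^ j`, over a finite extension.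

Examples, for `s = 1` and ordinary `π i`. All `ρ` of even weight `2 v` with slopes between
`v - 1 / √2` and `v + 1 / √2` are good, and all `ρ` of any weight `w` with slopes between
`(w - 1) / 2` and `(w + 1) / 2`. In general all `ρ` of weight `2 v` are good whose degree over `ℚ`
is more than `2 ∑ (s - v) ^ 2`, the sum over the slopes `s` of all conjugates; for the second
cohomology of a surface of geometric genus `g` the Newton polygon lies above the Hodge polygon, and
it is sufficient that `ρ` is `q` times a root of unity or has degree more than `4 g` (more than
four for K3 surfaces). The conditions of this kind do not exclude any relation between `A` and the
other factor: `ℚ(ρ)` may be contained in a field `F i`, or in its Galois closure.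

Relation to other results. `SeveralTypesPerField` (this folder, helper70) is about abelian
varieties on which all algebraic classes are known; here nothing is known about the cycles on `B`.
For the standard conjecture of Hodge type (the homological form, for one polarization
`D × Z + A × B`) there is `SmallSlopeDeviation` (MP_ffcd14_ag, helper70), from which the criterion
for slopes is taken. New here are the numerical form, for which the theorem of Clozel is used, and
all polarizations. `AllCMTypesTimes` (this folder) is the theorem for the abelian varieties of
almost all slope types of all CM fields, if all eigenvalues of Frobenius on `B` are unrelated to
the fields; new here are the second and the third alternative, and the theorem is about each single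
abelian variety with absolutely irreducible fields.

The proof. A multiplicative relation between `ρ`, a power of `q` and a product of conjugates of the
`π i` gives, for each automorphism `σ` of a Galois closure, the linear relation
`s (σ ρ) - w / 2 = ∑ x, n x (s (σ x) - 1 / 2)` between slopes, up to signs, where the sum is over
one embedding `x` of each conjugate pair and `n x` is the difference of the multiplicities of `x`
and of its conjugate. The second moments of the slopes are an invariant form on the odd functions;
it is real valued, but all its compositions with rational functionals are rational invariant forms,
and so the slopes at different pairs are uncorrelated, by Schur's lemma. Hence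
`d (ρ) = ∑ x, (n x) ^ 2 d (π x)`. If the weight of `ρ` is even, so is the sum of all
multiplicities, and a single `n x = ± 1` is impossible. So all `n x` are zero (`noRel_good`, by
helper70). So the classes of cycles on `A` are generated by divisors, and the classes of cycles on
`A × B` are combinations of products of classes of cycles on `A` and on `B`; numerical and
homological equivalence coincide on `A`, and on `A × B`. The rest is the theory of Lefschetz of the
starting files (TH132.A): the primitive classes on `A × B` are described by those on `A` and on `B`
as for the tensor product of two representations of `sl_2`, and the intersection forms are
products.
-/

set_option autoImplicit false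

namespace Pool.Agent.Results.MP_c0b458_ag.SmallSlopeDeviation

open NumberField Module Polynomial Pool.Agent.Y137.MV Pool.Agent.Y137.SL Pool.Agent.Y1.CT
  Pool.Agent.Q70.SQ Pool.Agent.Q64.P Pool.Agent.Q64.NH

/-- **The numerical Hodge standard conjecture for `A × B` is equivalent to the one for `B`, for the
abelian varieties `A` over finite fields with absolutely irreducible, unrelated CM fields and no
supersingular part, and all abelian varieties `B` each of whose Frobenius eigenvalues is unrelated
to these fields or has small mean square slope deviation.** -/
theorem result :
    (∀ (p : ℕ) [Fact p.Prime] (a : ℕ) (I : Type) [Fintype I] (F : I → Type)
      [∀ i, Field (F i)] [∀ i, NumberField (F i)] [∀ i, IsCMField (F i)] (π : ∀ i, F i)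
      (f : I → ℤ[X]), 0 < a →
      (∀ i, π i * IsCMField.complexConj (F i) (π i) = (p : F i) ^ a) →
      (∀ i, OddAbsolutelyIrreducible (F i)) →
      (∀ i i', i ≠ i' → Pool.Agent.Y137.MV.Unrelated (F i) (F i')) →
      (∀ i, HasOtherSlope p a (π i)) → (∀ i, IsPolyOf (π i) (f i)) →
      NumHodgeReduces (GoodRoots p a π) (p ^ a) f) ∧
    (∀ (p : ℕ) [Fact p.Prime] (a : ℕ) (F : Type) [Field F] [NumberField F] (π : F),
      IsOrdinary p a π → weilDeviation p a π = (a * Real.log p) ^ 2 / 4) := by
  refine ⟨?_, ?_⟩
  · intro p _ a I _ F _ _ _ π f ha hw habs hun hns hf
    exact numHodgeReduces (Nat.one_lt_pow ha.ne' (Fact.out : p.Prime).one_lt)
      (good_small ha hw habs hun hns f hf)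
  · intro p _ a F _ _ π h
    exact weilDeviation_ordinary h

end Pool.Agent.Results.MP_c0b458_ag.SmallSlopeDeviation
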